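import Pool.Agent.Helper38.FE.Main

/-!
# The two non-microstates free entropy dimensions differ

There is a tracial von Neumann algebra `M` and a self-adjoint 4-tuple `x` in `M` with
`δ*(x) ≠ δ^⋆(x)`.  Here `x = (x_0, x_1, x_2, x_l)`, where `x_0, x_1, x_2` are free semicirculars
and `x_l` is a rapidly convergent real series of real parts of long aperiodic words in the Cayley
transforms of `x_0, x_1, x_2`.
-/

open MeasureTheory Filter Topology
open scoped InnerProductSpace ENNReal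
open Pool.Agent.Helper38.FE

namespace Pool.Agent.Results.MP_ce43bb_an.DimensionsDiffer

theorem result : ∃ (H : Type) (_ : NormedAddCommGroup H) (_ : InnerProductSpace ℂ H)
    (_ : CompleteSpace H) (M : VonNeumannAlgebra H) (Ω : H) (x : Fin 4 → (H →L[ℂ] H))
    (s : Fin 4 ⊕ Fin 4 → (H →L[ℂ] H)),
    TracialSpace M Ω ∧ (∀ i, x i ∈ M ∧ IsSelfAdjoint (x i)) ∧ (∀ i, s i ∈ M) ∧
    IsFreeSemi Ω x s ∧
    (∀ t : ℝ, 0 < t → PhiStar Ω (pert x (fun j => s (Sum.inl j)) t) ≠ ⊤) ∧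
    (∀ t u : ℝ, 0 < t → 0 < u →
      PhiStar Ω (pert (pert x (fun j => s (Sum.inl j)) t) (fun j => s (Sum.inr j)) u) ≠ ⊤) ∧
    (∀ t : ℝ, 0 < t → IntegrableOn (fun u : ℝ => 4 / (1 + u) -
      (PhiStar Ω (pert (pert x (fun j => s (Sum.inl j)) t) (fun j => s (Sum.inr j)) u)).toReal)
      (Set.Ioi 0)) ∧
    deltaStar Ω x (fun j => s (Sum.inl j)) (fun j => s (Sum.inr j)) ≠
      deltaFive Ω x (fun j => s (Sum.inl j)) :=
  final

end Pool.Agent.Results.MP_ce43bb_an.DimensionsDiffer
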